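import Pool.Agent.H75.Engel.Hull

/-!
# Every right order on a `k`-Engel group is a right Conrad ordering
-/

set_option autoImplicit false

namespace Pool.Agent.Results.MP_c394df_al.RightConrad

variable {G : Type*} [Group G]

/-- `r` (read `r x y` as `x ≤ y`) is a right order on `G`: a total order such that `x ≤ y` implies
`x b ≤ y b`. -/
def IsRightOrder (r : G → G → Prop) : Prop :=
  (∀ x y : G, r x y ∨ r y x) ∧
  (∀ x y : G, r x y → r y x → x = y) ∧
  (∀ x y z : G, r x y → r y z → r x z) ∧
  (∀ x y b : G, r x y → r (x * b) (y * b))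

/-- The subgroup `C` is convex with respect to `r`. -/
def IsConvex (r : G → G → Prop) (C : Subgroup G) : Prop :=
  ∀ x ∈ C, ∀ y ∈ C, ∀ z : G, r x z → r z y → z ∈ C

/-- `C ⊂ D` is a convex jump: `C` and `D` are convex subgroups, and `C` is maximal among the convex
subgroups properly contained in `D`. -/
def IsConvexJump (r : G → G → Prop) (C D : Subgroup G) : Prop :=
  IsConvex r C ∧ IsConvex r D ∧ C < D ∧
    ∀ F : Subgroup G, IsConvex r F → C ≤ F → F < D → F = C

/-- `r` is a right Conrad ordering: a right order such that for every convex jump `C ⊂ D`, the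
subgroup `C` is normal in `D` and the induced order on `D / C` is archimedean, that is, for all
`x, y ∈ D` with `x ∉ C` and `1 ≤ x` there is `n` with `y ≤ x ^ n`. -/
def IsRightConrad (r : G → G → Prop) : Prop :=
  IsRightOrder r ∧ ∀ C D : Subgroup G, IsConvexJump r C D →
    (∀ c ∈ C, ∀ d ∈ D, d * c * d⁻¹ ∈ C) ∧
    (∀ x ∈ D, ∀ y ∈ D, x ∉ C → r 1 x → ∃ n : ℕ, r y (x ^ n))

/-- Every right order on a `k`-Engel group is a right Conrad ordering. -/
theorem result :
    ∀ (k : ℕ) (G : Type*) [Group G],
      (∀ x y : G, (fun z : G => z⁻¹ * y⁻¹ * z * y)^[k] x = 1) →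
      ∀ r : G → G → Prop, IsRightOrder r → IsRightConrad r := by
  intro k G _ hE r hr
  refine ⟨hr, ?_⟩
  obtain ⟨htot, hanti, htrans, hmul⟩ := hr
  letI : LinearOrder G :=
    { le := r
      le_refl := fun x => (htot x x).elim id id
      le_trans := htrans
      le_antisymm := hanti
      le_total := htot
      toDecidableLE := Classical.decRel _ }
  rintro C D ⟨hC, hD, hCD, hmax⟩
  obtain ⟨h1, h2⟩ := Pool.Agent.H75.Engel.jump_conrad (G := G) (fun x y b h => hmul x y b h) hE C D
    hC hD hCD hmax
  refine ⟨h1, ?_⟩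
  intro x hx y hy hxC h1x
  refine h2 x hx hxC (lt_of_le_of_ne h1x ?_) y hy
  rintro rfl
  exact hxC C.one_mem

end Pool.Agent.Results.MP_c394df_al.RightConrad
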